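import Pool.Agent.H248R6.NearAll
import Pool.Agent.H248R5.Gen
import Pool.Agent.TH648.SH.Main

/-! Smooth general members in all degrees from the exact postulation of near-uniform systems. -/

namespace Pool.Agent.TH648.UX

open Finset Pool.Agent.H932R3 Pool.Agent.H248R5 Pool.Agent.H248R6

/-- the expected dimension at general points in all degrees -/
def HX {n : ℕ} (w : Fin n → ℕ) : Prop :=
  ∃ F : MvPolynomial (Fin n × Fin 2) ℚ, F ≠ 0 ∧ ∀ {L : Type} [Field L] [CharZero L]
    (P : Fin n → Fin 2 → L), MvPolynomial.aeval (fun ij : Fin n × Fin 2 => P ij.1 ij.2) F ≠ 0 →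
    ∀ d, ExpDim L w P d

theorem aeval_ne_of_ind {n : ℕ} {F : MvPolynomial (Fin n × Fin 2) ℚ} (hF : F ≠ 0) {L : Type}
    [Field L] [CharZero L] {P : Fin n → Fin 2 → L}
    (hP : AlgebraicIndependent ℚ (fun ij : Fin n × Fin 2 => P ij.1 ij.2)) :
    MvPolynomial.aeval (fun ij : Fin n × Fin 2 => P ij.1 ij.2) F ≠ 0 := by
  intro h
  apply hF
  exact (algebraicIndependent_iff.1 hP) F h

theorem HX_zero {n : ℕ} {w : Fin n → ℕ} (hw : ∀ i, w i = 0) : HX w := by
  obtain ⟨F, hF, hF'⟩ := TH648.SH.expDim_arb w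
  refine ⟨F, hF, fun {L} _ _ P hP d => hF' P hP d (Or.inr ⟨3, le_rfl, ?_⟩)⟩
  rintro k ⟨i, hi⟩
  rw [hw i] at hi
  exact absurd hi (Nat.not_lt_zero k)

theorem pred_num {n M e : ℕ} (he : n * (M + 1).choose 2 + M + 1 ≤ (e + 3).choose 2) :
    n * (M - 1 + 1).choose 2 ≤ (e + 2).choose 2 := by
  rcases Nat.eq_zero_or_pos M with h0 | h0
  · subst h0
    simp
  obtain ⟨m, rfl⟩ : ∃ m, M = m + 1 := ⟨M - 1, by omega⟩
  rw [Nat.add_sub_cancel]
  have e1 := two_choose (m + 1)
  have e2 := two_choose m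
  have e3 := two_choose (e + 2)
  have e4 := two_choose (e + 1)
  have e5 : e + 2 + 1 = e + 3 := rfl
  have e6 : e + 1 + 1 = e + 2 := rfl
  rw [e5] at e3
  rw [e6] at e4
  -- twice the numbers
  have f1 : 2 * (n * (m + 1 + 1).choose 2) = n * ((m + 1 + 1) * (m + 1)) := by rw [← e1]; ring
  have f2 : 2 * (n * (m + 1).choose 2) = n * ((m + 1) * m) := by rw [← e2]; ring
  have g1 : n * ((m + 1 + 1) * (m + 1)) + 2 * (m + 1) + 2 ≤ (e + 3) * (e + 2) := by
    nlinarith
  have goal2 : n * ((m + 1) * m) ≤ (e + 2) * (e + 1) := by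
    rcases le_or_gt (e + 2) (n * (m + 1)) with h | h
    · have h1 : n * ((m + 1 + 1) * (m + 1)) = n * ((m + 1) * m) + 2 * (n * (m + 1)) := by ring
      have h2 : (e + 3) * (e + 2) = (e + 2) * (e + 1) + 2 * (e + 2) := by ring
      omega
    · have h1 : n * (m + 1) ≤ e + 1 := by omega
      rcases Nat.eq_zero_or_pos n with hn | hn
      · subst hn; simp
      have h2 : m ≤ e + 2 := by
        have : 1 * (m + 1) ≤ n * (m + 1) := Nat.mul_le_mul_right _ hn
        omega
      calc n * ((m + 1) * m) = (n * (m + 1)) * m := by ring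
        _ ≤ (e + 1) * (e + 2) := Nat.mul_le_mul h1 h2
        _ = (e + 2) * (e + 1) := by ring
  omega

/-- **nonspecial in all degrees, and smooth general members for all smaller multiplicities as soon
as one more multiple point fits** -/
theorem uni_smooth {n M : ℕ} (hn : 0 < n) (hM : 0 < M)
    (hk : ∀ k : Fin n, HX (Function.update (fun _ : Fin n => M) k (M + 1)))
    (h0 : HX (fun _ : Fin n => M)) (h1 : HX (fun _ : Fin n => M - 1)) {K : Type} [Field K]
    [CharZero K] :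
    ∃ F : MvPolynomial (Fin n × Fin 2) ℚ, F ≠ 0 ∧ ∀ P : Fin n → Fin 2 → K,
      MvPolynomial.aeval (fun ij : Fin n × Fin 2 => P ij.1 ij.2) F ≠ 0 →
      (∀ d, Module.finrank K ↥(forms (fun _ => M) P d) =
        (d + 2).choose 2 - n * (M + 1).choose 2) ∧
      ∀ w : Fin n → ℕ, (∀ i, w i ≤ M) → ∀ d, n * (M + 1).choose 2 + M < (d + 2).choose 2 →
        Module.finrank K ↥(forms w P d) + ∑ i, (w i + 1).choose 2 = (d + 2).choose 2 ∧
          GeneralMember (forms w P d) (SmoothMember w P) := by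
  classical
  choose G hG hG' using hk
  obtain ⟨F3, hF3, hF3'⟩ := h0
  obtain ⟨F4, hF4, hF4'⟩ := h1
  obtain ⟨F, hF, hF'⟩ := open_all (K := K) (n := n) (M := M) hn
    (fun d => n * (M + 1).choose 2 + M + 1 ≤ (d + 2).choose 2) (n * (M + 1))
    (fun e he L _ _ P hP =>
      ⟨fun k => surj_upd_of (hG' k P (aeval_ne_of_ind (hG k) hP) (e + 1)) he,
        surj_const_of (hF4' P (aeval_ne_of_ind hF4 hP) e) (pred_num he)⟩)
    ⟨∏ k, G k, Finset.prod_ne_zero_iff.2 fun k _ => hG k, fun P hP e he k => by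
      rw [map_prod] at hP
      exact surj_upd_of (hG' k P (Finset.prod_ne_zero_iff.1 hP k (Finset.mem_univ k)) (e + 1)) he⟩
    ⟨F3, hF3, fun P hP d hd => surj_const_of (hF3' P hP d) (large hn hd)⟩
  refine ⟨F * F3, mul_ne_zero hF hF3, fun P hP => ?_⟩
  rw [map_mul] at hP
  refine ⟨fun d => ?_, fun w hw d hd => ?_⟩
  · have h2 : Module.finrank K ↥(forms (fun _ : Fin n => M) P d) =
      (d + 2).choose 2 - ∑ i : Fin n, (M + 1).choose 2 := hF3' P (right_ne_zero_of_mul hP) d
    rw [h2, Finset.sum_const, Finset.card_univ, Fintype.card_fin, smul_eq_mul]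
  · obtain ⟨e, rfl⟩ : ∃ e, d = e + 1 := by
      refine ⟨d - 1, ?_⟩
      rcases Nat.eq_zero_or_pos d with h0 | h0
      · exfalso
        subst h0
        have h3 : (0 + 2).choose 2 = 1 := rfl
        rw [h3] at hd
        omega
      · omega
    exact hF' P (left_ne_zero_of_mul hP) w hw e (Or.inl hd)

/-- uniform exactness alone: smooth general members one degree after independence -/
theorem uni_only {n M : ℕ} (h0 : HX (fun _ : Fin n => M)) {K : Type} [Field K] [CharZero K] :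
    ∃ F : MvPolynomial (Fin n × Fin 2) ℚ, F ≠ 0 ∧ ∀ P : Fin n → Fin 2 → K,
      MvPolynomial.aeval (fun ij : Fin n × Fin 2 => P ij.1 ij.2) F ≠ 0 →
      (∀ d, Module.finrank K ↥(forms (fun _ => M) P d) =
        (d + 2).choose 2 - n * (M + 1).choose 2) ∧
      ∀ d, n * (M + 1).choose 2 ≤ (d + 2).choose 2 →
        GeneralMember (forms (fun _ => M) P (d + 1)) (SmoothMember (fun _ => M) P) := by
  classical
  obtain ⟨F3, hF3, hF3'⟩ := h0
  refine ⟨F3 * disc ℚ n, mul_ne_zero hF3 (disc_ne ℚ n), fun P hP => ?_⟩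
  rw [map_mul] at hP
  have hs : ∑ _i : Fin n, (M + 1).choose 2 = n * (M + 1).choose 2 := by
    rw [Finset.sum_const, Finset.card_univ, Fintype.card_fin, smul_eq_mul]
  have h1 : ∀ d, Module.finrank K ↥(forms (fun _ => M) P d) =
      (d + 2).choose 2 - n * (M + 1).choose 2 := by
    intro d
    have h2 : Module.finrank K ↥(forms (fun _ : Fin n => M) P d) =
      (d + 2).choose 2 - ∑ i : Fin n, (M + 1).choose 2 := hF3' P (left_ne_zero_of_mul hP) d
    rw [h2, hs]
  refine ⟨h1, fun d hd => general_smooth (inj_of_disc' (right_ne_zero_of_mul hP)) ?_⟩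
  rw [h1 d, hs]
  omega

/-- the same from exactness for all vectors of `m` and `m + 1` -/
theorem near_smooth {n : ℕ} (hn : 0 < n)
    (hX : ∀ m : ℕ, 0 < m → ∀ w : Fin n → ℕ, (∀ i, w i = m ∨ w i = m + 1) → HX w) {M : ℕ}
    (hM : 0 < M) {K : Type} [Field K] [CharZero K] :
    ∃ F : MvPolynomial (Fin n × Fin 2) ℚ, F ≠ 0 ∧ ∀ P : Fin n → Fin 2 → K,
      MvPolynomial.aeval (fun ij : Fin n × Fin 2 => P ij.1 ij.2) F ≠ 0 →
      (∀ d, Module.finrank K ↥(forms (fun _ => M) P d) =
        (d + 2).choose 2 - n * (M + 1).choose 2) ∧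
      ∀ w : Fin n → ℕ, (∀ i, w i ≤ M) → ∀ d, n * (M + 1).choose 2 + M < (d + 2).choose 2 →
        Module.finrank K ↥(forms w P d) + ∑ i, (w i + 1).choose 2 = (d + 2).choose 2 ∧
          GeneralMember (forms w P d) (SmoothMember w P) := by
  classical
  refine uni_smooth hn hM (fun k => hX M hM _ (upd_near M k)) (hX M hM _ fun _ => Or.inl rfl) ?_
  rcases Nat.eq_zero_or_pos (M - 1) with h | h
  · exact HX_zero fun _ => h
  · exact hX (M - 1) h _ fun _ => Or.inl rfl

end Pool.Agent.TH648.UX
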